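import Mathlib
import Pool.Agent.Results.MP_15d263_co.Aligned

set_option autoImplicit false

/-!
# Idiomeric tilings by two-square tiles: every pair occurs

Here the copies of the prototile need not be aligned with one square grid, exactly as in the
definition of a monohedral tiling in the problem. All definitions (`Plane`, `pt`, `sq`, `T`,
`IsTiling`, `Monohedral`, `IsSymmetry`, `Isohedral`, `Idiomeric`) are those of the file `Aligned`.
-/

namespace Pool.Agent.Results.MP_15d263_co.AllPairs

open Pool.Agent.Results.MP_15d263_co.Aligned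

/-- The reflection of the plane exchanging the two coordinates. -/
noncomputable def swapIso : Plane ≃ᵢ Plane where
  toFun z := pt (z 1) (z 0)
  invFun z := pt (z 1) (z 0)
  left_inv z := ext2 (by simp) (by simp)
  right_inv z := ext2 (by simp) (by simp)
  isometry_toFun := by
    apply Isometry.of_dist_eq
    intro z w
    have h : dist (pt (z 1) (z 0)) (pt (w 1) (w 0)) ^ 2 = dist z w ^ 2 := by
      rw [dist_sq, dist_sq]; simp; ring
    exact (sq_eq_sq₀ dist_nonneg dist_nonneg).1 h

theorem swapIso_apply (z : Plane) : swapIso z = pt (z 1) (z 0) := rfl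

theorem swapIso_sq (u v : ℝ) : swapIso '' sq (pt u v) = sq (pt v u) := by
  ext z
  constructor
  · rintro ⟨w, ⟨h0, h1⟩, rfl⟩
    rw [swapIso_apply]
    exact ⟨by simpa using h1, by simpa using h0⟩
  · rintro ⟨h0, h1⟩
    refine ⟨pt (z 1) (z 0), ⟨by simpa using h1, by simpa using h0⟩, ?_⟩
    rw [swapIso_apply]
    exact ext2 (by simp) (by simp)

theorem swapIso_T (x y : ℤ) : swapIso '' T x y = T y x := by
  rw [T, T, Set.image_union, swapIso_sq, swapIso_sq]

/-- Every two-square tile `T(x,y)` with disjoint squares admits an idiomeric tiling. -/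
theorem result (x y : ℤ) (hxy : 2 ≤ max |x| |y|) :
    ∃ F : Set (Set Plane), IsTiling F ∧ Monohedral F (T x y) ∧ Idiomeric F := by
  by_cases hy : y = 0
  · subst hy
    have hx : x ≠ 0 := by
      rintro rfl
      simp at hxy
    have hx' : (x : ℝ) ≠ 0 := by exact_mod_cast hx
    obtain ⟨h1, h2, h3⟩ := construction 0 x (by rwa [max_comm]) (-1 / (x : ℝ)) 1 odd_one
      (by push_cast; field_simp; norm_num)
    refine ⟨_, h1, ?_, h3⟩
    intro t ht
    obtain ⟨g, hg⟩ := h2 t ht
    refine ⟨swapIso.trans g, ?_⟩
    rw [← hg, ← swapIso_T x 0, Set.image_image]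
    rfl
  · have hy' : (y : ℝ) ≠ 0 := by exact_mod_cast hy
    obtain ⟨h1, h2, h3⟩ := construction x y hxy (((x : ℝ) - 1) / (y : ℝ)) 1 odd_one
      (by push_cast; field_simp; ring)
    exact ⟨_, h1, h2, h3⟩

end Pool.Agent.Results.MP_15d263_co.AllPairs
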